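import Mathlib

/-!
Module CDF of squad NGR: cutting supports, restriction to the kernel.
-/

set_option autoImplicit false

universe u v w

namespace Pool.Agent.NGR.H67

open MonoidAlgebra

section cut

variable {G : Type u} [Group G] (f : G →* Multiplicative ℤ)

/-- integer weight -/
def wt (g : G) : ℤ := Multiplicative.toAdd (f g)

theorem wt_mul (g h : G) : wt f (g * h) = wt f g + wt f h := by
  simp [wt]

theorem wt_zpow (g : G) (a : ℤ) : wt f (g ^ a) = a * wt f g := by
  simp [wt]

theorem wt_ker (g : f.ker) : wt f (g : G) = 0 := by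
  have : f (g : G) = 1 := g.2
  simp [wt, this]

open Classical in
/-- restrict the support to the elements with weight in `D` -/
noncomputable def cut (D : Set ℤ) : MonoidAlgebra ℤ G →+ MonoidAlgebra ℤ G :=
  (coeffAddEquiv (R := ℤ) (M := G)).symm.toAddMonoidHom.comp
    ((Finsupp.filterAddHom (fun g => wt f g ∈ D)).comp
      (coeffAddEquiv (R := ℤ) (M := G)).toAddMonoidHom)

open Classical in
theorem cut_single (D : Set ℤ) (g : G) (r : ℤ) :
    cut f D (single g r) = if wt f g ∈ D then single g r else 0 := by
  show ofCoeff ((single g r).coeff.filter (fun g => wt f g ∈ D)) = _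
  rw [coeff_single]
  by_cases h : wt f g ∈ D
  · rw [Finsupp.filter_single_of_pos (p := fun g => wt f g ∈ D) h, if_pos h]; rfl
  · rw [Finsupp.filter_single_of_neg (p := fun g => wt f g ∈ D) h, if_neg h]; rfl

theorem cut_act (D : Set ℤ) (g : G) (x : MonoidAlgebra ℤ G) :
    single g (1 : ℤ) * cut f D x = cut f {k | k - wt f g ∈ D} (single g (1 : ℤ) * x) := by
  classical
  induction x using MonoidAlgebra.induction_linear with
  | zero => simp
  | add x y hx hy => rw [map_add, mul_add, hx, hy, mul_add, map_add]
  | single h r =>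
      rw [cut_single, single_mul_single, one_mul, cut_single]
      have : (wt f (g * h) ∈ {k | k - wt f g ∈ D}) ↔ wt f h ∈ D := by
        show wt f (g * h) - wt f g ∈ D ↔ wt f h ∈ D
        rw [wt_mul, add_sub_cancel_left]
      by_cases hh : wt f h ∈ D
      · rw [if_pos hh, if_pos (this.2 hh), single_mul_single, one_mul]
      · rw [if_neg hh, if_neg (fun h' => hh (this.1 h')), mul_zero]

theorem cut_compl (D : Set ℤ) (x : MonoidAlgebra ℤ G) : cut f D x + cut f Dᶜ x = x := by
  classical
  induction x using MonoidAlgebra.induction_linear with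
  | zero => simp
  | add x y hx hy =>
      rw [map_add, map_add]
      nth_rewrite 3 [← hx]
      nth_rewrite 3 [← hy]
      abel
  | single h r =>
      rw [cut_single, cut_single]
      by_cases hh : wt f h ∈ D
      · rw [if_pos hh, if_neg (fun h' : wt f h ∈ Dᶜ => h' hh), add_zero]
      · rw [if_neg hh, if_pos (show wt f h ∈ Dᶜ from hh), zero_add]

theorem cut_fin (x : MonoidAlgebra ℤ G) :
    ∃ M : ℕ, ∀ D : Set ℤ, (∀ k ∈ D, (M : ℤ) < |k|) → cut f D x = 0 := by
  classical
  induction x using MonoidAlgebra.induction_linear with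
  | zero => exact ⟨0, fun D _ => map_zero _⟩
  | add x y hx hy =>
      obtain ⟨M, hM⟩ := hx
      obtain ⟨M', hM'⟩ := hy
      refine ⟨max M M', fun D hD => ?_⟩
      rw [map_add, hM D (fun k hk => lt_of_le_of_lt (by exact_mod_cast le_max_left M M') (hD k hk)),
        hM' D (fun k hk => lt_of_le_of_lt (by exact_mod_cast le_max_right M M') (hD k hk)),
        add_zero]
  | single h r =>
      refine ⟨(wt f h).natAbs, fun D hD => ?_⟩
      rw [cut_single, if_neg]
      intro hh
      have := hD _ hh
      rw [Int.natCast_natAbs] at this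
      exact lt_irrefl _ this

variable {P : Type v} [AddCommGroup P] [Module (MonoidAlgebra ℤ G) P]

/-- cut all coefficients and sum up -/
noncomputable def cutSum (D : Set ℤ) : (P →₀ MonoidAlgebra ℤ G) →+ P :=
  Finsupp.liftAddHom (fun y : P =>
    ((smulAddHom (MonoidAlgebra ℤ G) P).flip y).comp (cut f D))

theorem cutSum_single (D : Set ℤ) (y : P) (r : MonoidAlgebra ℤ G) :
    cutSum f D (Finsupp.single y r) = cut f D r • y := by
  simp [cutSum]

theorem cutSum_act (D : Set ℤ) (g : G) (F : P →₀ MonoidAlgebra ℤ G) :
    single g (1 : ℤ) • cutSum f D F = cutSum f {k | k - wt f g ∈ D} (single g (1 : ℤ) • F) := by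
  induction F using Finsupp.induction_linear with
  | zero => simp
  | add x y hx hy => rw [map_add, smul_add, hx, hy, smul_add, map_add]
  | single y r =>
      rw [cutSum_single, Finsupp.smul_single, cutSum_single, smul_smul, cut_act, smul_eq_mul]

theorem cutSum_compl (D : Set ℤ) (F : P →₀ MonoidAlgebra ℤ G) :
    cutSum f D F + cutSum f Dᶜ F = Finsupp.linearCombination (MonoidAlgebra ℤ G) id F := by
  induction F using Finsupp.induction_linear with
  | zero => simp
  | add x y hx hy =>
      rw [map_add, map_add, map_add, ← hx, ← hy]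
      abel
  | single y r =>
      rw [cutSum_single, cutSum_single, ← add_smul, cut_compl, Finsupp.linearCombination_single]
      rfl

theorem cutSum_fin (F : P →₀ MonoidAlgebra ℤ G) :
    ∃ M : ℕ, ∀ D : Set ℤ, (∀ k ∈ D, (M : ℤ) < |k|) → cutSum f D F = 0 := by
  induction F using Finsupp.induction_linear with
  | zero => exact ⟨0, fun D _ => map_zero _⟩
  | add x y hx hy =>
      obtain ⟨M, hM⟩ := hx
      obtain ⟨M', hM'⟩ := hy
      refine ⟨max M M', fun D hD => ?_⟩
      rw [map_add, hM D (fun k hk => lt_of_le_of_lt (by exact_mod_cast le_max_left M M') (hD k hk)),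
        hM' D (fun k hk => lt_of_le_of_lt (by exact_mod_cast le_max_right M M') (hD k hk)),
        add_zero]
  | single y r =>
      obtain ⟨M, hM⟩ := cut_fin f r
      refine ⟨M, fun D hD => ?_⟩
      rw [cutSum_single, hM D hD, zero_smul]

end cut

section res

variable {G : Type u} [Group G] (f : G →* Multiplicative ℤ)

/-- inclusion of group rings -/
noncomputable def phi : MonoidAlgebra ℤ f.ker →+* MonoidAlgebra ℤ G :=
  MonoidAlgebra.mapDomainRingHom ℤ f.ker.subtype

theorem phi_single (n : f.ker) (r : ℤ) : phi f (single n r) = single (n : G) r := by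
  simp [phi]

/-- restriction of scalars -/
noncomputable abbrev resMod (P : Type v) [AddCommGroup P] [Module (MonoidAlgebra ℤ G) P] :
    Module (MonoidAlgebra ℤ f.ker) P := Module.compHom P (phi f)

theorem smul_single_eq {P : Type v} [AddCommGroup P] [Module (MonoidAlgebra ℤ G) P]
    (g : G) (r : ℤ) (x : P) : (single g r : MonoidAlgebra ℤ G) • x
      = r • ((single g (1 : ℤ) : MonoidAlgebra ℤ G) • x) := by
  rw [← smul_assoc]
  congr 1
  rw [MonoidAlgebra.smul_single]
  simp

/-- equivariant additive maps are linear -/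
theorem lin_of_equiv {P : Type v} {P' : Type w} [AddCommGroup P] [AddCommGroup P']
    [Module (MonoidAlgebra ℤ G) P] [Module (MonoidAlgebra ℤ G) P'] (χ : P →+ P')
    (h : ∀ (n : f.ker) (x : P), χ (single (n : G) (1 : ℤ) • x) = single (n : G) (1 : ℤ) • χ x)
    (s : MonoidAlgebra ℤ f.ker) (x : P) : χ (phi f s • x) = phi f s • χ x := by
  induction s using MonoidAlgebra.induction_linear with
  | zero => simp
  | add a b ha hb => rw [map_add, add_smul, map_add, ha, hb, add_smul]
  | single n r =>
      rw [phi_single, smul_single_eq, map_zsmul, h, ← smul_single_eq]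

end res

end Pool.Agent.NGR.H67
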