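import Mathlib

/-!
Module CDF of squad NGR: homological part over one ring.
-/

set_option autoImplicit false

universe u v w x

namespace Pool.Agent.NGR.H67

section fs

variable {S : Type u} [Ring S]

/-- the kernel of `δ` is, up to maps that extend to the whole module, finitely generated -/
def Fac {P : Type v} {X : Type w} [AddCommGroup P] [Module S P] [AddCommGroup X] [Module S X]
    (δ : P →ₗ[S] X) : Prop :=
  ∃ (A : Type u) (_ : AddCommGroup A) (_ : Module S A) (_ : Module.Finite S A)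
    (α : LinearMap.ker δ →ₗ[S] A) (β : A →ₗ[S] P) (γ : P →ₗ[S] P),
    (∀ a, δ (β a) = 0) ∧ (∀ y, δ (γ y) = 0) ∧ ∀ z : LinearMap.ker δ, β (α z) + γ (z : P) = z

theorem fs_step [IsNoetherianRing S] {P : Type v} {Z : Type w} {M : Type x}
    [AddCommGroup P] [Module S P] [AddCommGroup Z] [Module S Z] [AddCommGroup M] [Module S M]
    [Module.Projective S P] [Module.Projective S M]
    (π : P →ₗ[S] Z) (hπ : Function.Surjective π) (ι : Z →ₗ[S] M)
    {A : Type*} [AddCommGroup A] [Module S A] [Module.Finite S A]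
    (α : Z →ₗ[S] A) (β : A →ₗ[S] Z) (γ : M →ₗ[S] Z) (h : ∀ z, β (α z) + γ (ι z) = z) :
    Fac π := by
  obtain ⟨n, q, hq⟩ := Module.Finite.exists_fin' S A
  obtain ⟨αt, hα⟩ := Module.projective_lifting_property q (α.comp π) hq
  obtain ⟨βt, hβ⟩ := Module.projective_lifting_property π (β.comp q) hπ
  obtain ⟨γt, hγ⟩ := Module.projective_lifting_property π γ hπ
  have hα' : ∀ x, q (αt x) = α (π x) := fun x => LinearMap.congr_fun hα x
  have hβ' : ∀ x, π (βt x) = β (q x) := fun x => LinearMap.congr_fun hβ x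
  have hγ' : ∀ x, π (γt x) = γ x := fun x => LinearMap.congr_fun hγ x
  refine ⟨LinearMap.ker q, inferInstance, inferInstance, inferInstance,
    (αt.comp (LinearMap.ker π).subtype).codRestrict (LinearMap.ker q) ?_,
    βt.comp (LinearMap.ker q).subtype,
    LinearMap.id - βt.comp αt - γt.comp (ι.comp π), ?_, ?_, ?_⟩
  · intro c
    have hc : π (c : P) = 0 := c.2
    simp [LinearMap.mem_ker, hα', hc]
  · intro a
    have ha : q (a : Fin n → S) = 0 := a.2
    simp [hβ', ha]
  · intro y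
    have := h (π y)
    simp only [LinearMap.sub_apply, LinearMap.id_apply, LinearMap.comp_apply, map_sub, hβ', hα',
      hγ']
    nth_rewrite 1 [← this]
    abel
  · intro z
    have hz : π (z : P) = 0 := z.2
    simp [hz]

theorem fs_zero [IsNoetherianRing S] {P : Type v} {A : Type w} [AddCommGroup P] [Module S P]
    [Module.Projective S P] [AddCommGroup A] [Module S A] [Module.Finite S A]
    (ε : P →ₗ[S] A) (hε : Function.Surjective ε) : Fac ε :=
  fs_step (M := P) ε hε 0 LinearMap.id LinearMap.id 0 (by simp)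

theorem fs_succ [IsNoetherianRing S] {P : Type v} {X : Type w} {P' : Type x} [AddCommGroup P]
    [Module S P] [AddCommGroup X] [Module S X] [AddCommGroup P'] [Module S P']
    [Module.Projective S P] [Module.Projective S P']
    (δ : P →ₗ[S] X) (d : P' →ₗ[S] P) (hd : Function.Exact d δ) (hF : Fac δ) : Fac d := by
  obtain ⟨A, iA, iM, iF, α, β, γ, hβ, hγ, hz⟩ := hF
  have h0 : ∀ c, d c ∈ LinearMap.ker δ := fun c => (hd (d c)).2 ⟨c, rfl⟩
  have hs : Function.Surjective (d.codRestrict (LinearMap.ker δ) h0) := by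
    rintro ⟨y, hy⟩
    obtain ⟨c, hc⟩ := (hd y).1 hy
    exact ⟨c, Subtype.ext hc⟩
  have key : Fac (d.codRestrict (LinearMap.ker δ) h0) :=
    fs_step (M := P) _ hs (LinearMap.ker δ).subtype α
      (β.codRestrict (LinearMap.ker δ) (fun a => hβ a))
      (γ.codRestrict (LinearMap.ker δ) (fun a => hγ a))
      (fun z => Subtype.ext (by simpa using hz z))
  obtain ⟨A', iA', iM', iF', α', β', γ', hβ', hγ', hz'⟩ := key
  have hk : LinearMap.ker d ≤ LinearMap.ker (d.codRestrict (LinearMap.ker δ) h0) := by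
    rw [LinearMap.ker_codRestrict]
  refine ⟨A', iA', iM', iF', α'.comp (Submodule.inclusion hk), β', γ', ?_, ?_, ?_⟩
  · intro a
    exact congrArg Subtype.val (hβ' a)
  · intro a
    exact congrArg Subtype.val (hγ' a)
  · intro z
    exact hz' (Submodule.inclusion hk z)

/-- Lemma (FS) of the plan. -/
theorem fs_all [IsNoetherianRing S] {Q : ℕ → Type v} [∀ i, AddCommGroup (Q i)]
    [∀ i, Module S (Q i)] [∀ i, Module.Projective S (Q i)] (d : ∀ i, Q (i + 1) →ₗ[S] Q i)
    {A : Type w} [AddCommGroup A] [Module S A] [Module.Finite S A] (ε : Q 0 →ₗ[S] A)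
    (hε : Function.Surjective ε) (h0 : Function.Exact (d 0) ε)
    (h : ∀ i, Function.Exact (d (i + 1)) (d i)) : ∀ i, Fac (d i) := by
  intro i
  induction i with
  | zero => exact fs_succ ε (d 0) h0 (fs_zero ε hε)
  | succ i ih => exact fs_succ (d i) (d (i + 1)) (h i) ih

theorem fs_inj {P : Type v} {X : Type w} {P' : Type x} [AddCommGroup P]
    [Module S P] [AddCommGroup X] [Module S X] [AddCommGroup P'] [Module S P']
    (δ : P →ₗ[S] X) (d : P' →ₗ[S] P) (hd : Function.Exact d δ) (hn : Function.Injective d)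
    (hF : Fac δ) :
    ∃ (B : Type u) (_ : AddCommGroup B) (_ : Module S B) (_ : Module.Finite S B)
      (β : B →ₗ[S] P') (γ : P →ₗ[S] P'), ∀ y : P', ∃ b, y = β b + γ (d y) := by
  obtain ⟨B, iB, iM, iF, α, β, γ, hβ, hγ, hz⟩ := hF
  let e : P' ≃ₗ[S] LinearMap.range d := LinearEquiv.ofInjective d hn
  have hr : ∀ z, δ z = 0 → z ∈ LinearMap.range d := fun z hz => (hd z).1 hz
  refine ⟨B, iB, iM, iF, e.symm.toLinearMap.comp
    (β.codRestrict (LinearMap.range d) (fun a => hr _ (hβ a))),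
    e.symm.toLinearMap.comp (γ.codRestrict (LinearMap.range d) (fun a => hr _ (hγ a))), ?_⟩
  intro y
  have hy : d y ∈ LinearMap.ker δ := (hd (d y)).2 ⟨y, rfl⟩
  refine ⟨α ⟨d y, hy⟩, ?_⟩
  have h2 := hz ⟨d y, hy⟩
  apply e.injective
  rw [map_add]
  apply Subtype.ext
  simp only [LinearMap.comp_apply, LinearEquiv.coe_coe, LinearEquiv.apply_symm_apply,
    Submodule.coe_add, LinearMap.codRestrict_apply]
  rw [h2]
  rfl

/-- the form that is used: for an injective last map -/
theorem fs_last [IsNoetherianRing S] {Q : ℕ → Type v} [∀ i, AddCommGroup (Q i)]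
    [∀ i, Module S (Q i)] [∀ i, Module.Projective S (Q i)] (d : ∀ i, Q (i + 1) →ₗ[S] Q i)
    {A : Type w} [AddCommGroup A] [Module S A] [Module.Finite S A] (ε : Q 0 →ₗ[S] A)
    (hε : Function.Surjective ε) (h0 : Function.Exact (d 0) ε)
    (h : ∀ i, Function.Exact (d (i + 1)) (d i)) (n : ℕ) (hn : Function.Injective (d n)) :
    ∃ (B : Type u) (_ : AddCommGroup B) (_ : Module S B) (_ : Module.Finite S B)
      (β : B →ₗ[S] Q (n + 1)) (γ : Q n →ₗ[S] Q (n + 1)),
      ∀ y : Q (n + 1), ∃ b, y = β b + γ (d n y) := by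
  cases n with
  | zero => exact fs_inj ε (d 0) h0 hn (fs_zero ε hε)
  | succ n => exact fs_inj (d n) (d (n + 1)) (h n) hn (fs_all d ε hε h0 h n)

end fs

section sub

variable {S : Type u} [Ring S]

/-- kernel of an idempotent endomorphism of a resolution that is zero on homology -/
theorem sub_res {Q : ℕ → Type v} [∀ i, AddCommGroup (Q i)]
    [∀ i, Module S (Q i)] [∀ i, Module.Projective S (Q i)] (d : ∀ i, Q (i + 1) →ₗ[S] Q i)
    {A : Type w} [AddCommGroup A] (ε : Q 0 →+ A)
    (hε : Function.Surjective ε) (h0 : Function.Exact (d 0) ε)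
    (h : ∀ i, Function.Exact (d (i + 1)) (d i))
    (θ : ∀ i, Q i →ₗ[S] Q i) (hid : ∀ i y, θ i (θ i y) = θ i y)
    (hch : ∀ i y, d i (θ (i + 1) y) = θ i (d i y)) (hεθ : ∀ y, ε (θ 0 y) = 0) :
    ∃ (d' : ∀ i, LinearMap.ker (θ (i + 1)) →ₗ[S] LinearMap.ker (θ i)),
      (∀ i, Module.Projective S (LinearMap.ker (θ i))) ∧
      (∀ i (y : LinearMap.ker (θ (i + 1))), ((d' i y : LinearMap.ker (θ i)) : Q i) = d i y) ∧
      Function.Surjective (fun y : LinearMap.ker (θ 0) => ε (y : Q 0)) ∧
      Function.Exact (d' 0) (fun y : LinearMap.ker (θ 0) => ε (y : Q 0)) ∧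
      ∀ i, Function.Exact (d' (i + 1)) (d' i) := by
  refine ⟨fun i => (d i).restrict (fun y hy => ?_), ?_, ?_, ?_, ?_, ?_⟩
  · have hy' : θ (i + 1) y = 0 := hy
    show θ i (d i y) = 0
    rw [← hch, hy', map_zero]
  · intro i
    have hc : ∀ y, (LinearMap.id - θ i : Q i →ₗ[S] Q i) y ∈ LinearMap.ker (θ i) := by
      intro y
      show θ i (y - θ i y) = 0
      rw [map_sub, hid, sub_self]
    refine Module.Projective.of_split (LinearMap.ker (θ i)).subtype
      ((LinearMap.id - θ i).codRestrict (LinearMap.ker (θ i)) hc) ?_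
    · ext y
      have hy : θ i (y : Q i) = 0 := y.2
      simp [hy]
  · intro i y
    rfl
  · intro a
    obtain ⟨y, hy⟩ := hε a
    refine ⟨⟨y - θ 0 y, ?_⟩, ?_⟩
    · show θ 0 (y - θ 0 y) = 0
      rw [map_sub, hid, sub_self]
    · show ε (y - θ 0 y) = a
      rw [map_sub, hεθ, sub_zero, hy]
  · rintro ⟨y, hy⟩
    have hy0 : θ 0 y = 0 := hy
    constructor
    · intro he
      obtain ⟨c, hc⟩ := (h0 y).1 he
      refine ⟨⟨c - θ 1 c, ?_⟩, ?_⟩
      · show θ 1 (c - θ 1 c) = 0
        rw [map_sub, hid, sub_self]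
      · apply Subtype.ext
        show d 0 (c - θ 1 c) = y
        have : d 0 (θ 1 c) = θ 0 (d 0 c) := hch 0 c
        rw [map_sub, this, hc, hy0, sub_zero]
    · rintro ⟨c, hc⟩
      have hc' : d 0 (c : Q 1) = y := congrArg Subtype.val hc
      exact (h0 y).2 ⟨c, hc'⟩
  · intro i
    rintro ⟨y, hy⟩
    have hy0 : θ (i + 1) y = 0 := hy
    constructor
    · intro he
      have he' : d i y = 0 := congrArg Subtype.val he
      obtain ⟨c, hc⟩ := (h i y).1 he'
      refine ⟨⟨c - θ (i + 2) c, ?_⟩, ?_⟩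
      · show θ (i + 2) (c - θ (i + 2) c) = 0
        rw [map_sub, hid, sub_self]
      · apply Subtype.ext
        show d (i + 1) (c - θ (i + 2) c) = y
        have := hch (i + 1) c
        rw [map_sub, this, hc, hy0, sub_zero]
    · rintro ⟨c, hc⟩
      have hc' : d (i + 1) (c : Q (i + 2)) = y := congrArg Subtype.val hc
      apply Subtype.ext
      exact (h i y).2 ⟨c, hc'⟩

/-- the idempotent that belongs to a splitting in degree `n` -/
theorem split_res {Q : ℕ → Type v} [∀ i, AddCommGroup (Q i)]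
    [∀ i, Module S (Q i)] (d : ∀ i, Q (i + 1) →ₗ[S] Q i)
    {A : Type w} [AddCommGroup A] (ε : Q 0 →+ A)
    (h0 : Function.Exact (d 0) ε)
    (h : ∀ i, Function.Exact (d (i + 1)) (d i)) (n : ℕ) (hz : ∀ i, n + 1 < i → Subsingleton (Q i))
    (u : Q n →ₗ[S] Q (n + 1)) (hu : ∀ y, u (d n y) = y) :
    ∃ (θ : ∀ i, Q i →ₗ[S] Q i), (∀ i y, θ i (θ i y) = θ i y) ∧
      (∀ i y, d i (θ (i + 1) y) = θ i (d i y)) ∧ (∀ y, ε (θ 0 y) = 0) ∧
      ∀ i, n < i → LinearMap.ker (θ i) = ⊥ := by
  classical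
  have hdd : ∀ i y, d i (d (i + 1) y) = 0 := fun i y => (h i (d (i + 1) y)).2 ⟨y, rfl⟩
  let U : ∀ i, Q i →ₗ[S] Q (i + 1) := Pi.single (M := fun i => Q i →ₗ[S] Q (i + 1)) n u
  have hUn : U n = u := Pi.single_eq_same (M := fun i => Q i →ₗ[S] Q (i + 1)) n u
  have hU : ∀ i, i ≠ n → U i = 0 := fun i hi =>
    Pi.single_eq_of_ne (M := fun i => Q i →ₗ[S] Q (i + 1)) hi u
  -- `U` is a partial inverse
  have hUd : ∀ i y, U i (d i (U i y)) = U i y := by
    intro i y
    by_cases hi : i = n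
    · subst hi; rw [hUn, hu]
    · rw [hU i hi]; simp
  have hUU : ∀ i y, U (i + 1) (U i y) = 0 := by
    intro i y
    by_cases hi : i = n
    · subst hi; rw [hU (i + 1) (by omega)]; simp
    · rw [hU i hi]; simp
  let θ : ∀ i, Q i →ₗ[S] Q i := fun i => match i with
    | 0 => (d 0).comp (U 0)
    | i + 1 => (d (i + 1)).comp (U (i + 1)) + (U i).comp (d i)
  have hθ0 : ∀ y, θ 0 y = d 0 (U 0 y) := fun y => rfl
  have hθs : ∀ i y, θ (i + 1) y = d (i + 1) (U (i + 1) y) + U i (d i y) := fun i y => rfl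
  refine ⟨θ, ?_, ?_, ?_, ?_⟩
  · intro i y
    cases i with
    | zero => rw [hθ0, hθ0, hUd]
    | succ i =>
        have e1 : U (i + 1) (θ (i + 1) y) = U (i + 1) y := by
          rw [hθs, map_add, hUd, hUU, add_zero]
        have e2 : d i (θ (i + 1) y) = d i (U i (d i y)) := by
          rw [hθs, map_add, hdd, zero_add]
        rw [hθs i (θ (i + 1) y), e1, e2, hUd, ← hθs]
  · intro i y
    have e2 : d i (θ (i + 1) y) = d i (U i (d i y)) := by
      rw [hθs, map_add, hdd, zero_add]
    rw [e2]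
    cases i with
    | zero => rw [hθ0]
    | succ i => rw [hθs i, hdd, map_zero, add_zero]
  · intro y
    rw [hθ0]
    exact (h0 _).2 ⟨_, rfl⟩
  · intro i hi
    rw [LinearMap.ker_eq_bot']
    intro y hy
    cases i with
    | zero => omega
    | succ i =>
        by_cases hin : i = n
        · subst hin
          rw [hθs, hU (i + 1) (by omega), LinearMap.zero_apply, map_zero, zero_add, hUn, hu] at hy
          exact hy
        · have := hz (i + 1) (by omega)
          exact Subsingleton.elim _ _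

end sub

end Pool.Agent.NGR.H67
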