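import Pool.Agent.Helper67_NGR.Cut

/-!
Module CDF of squad NGR: projective modules stay projective over the group ring of the kernel.
-/

set_option autoImplicit false

universe u v w

namespace Pool.Agent.NGR.H67

open MonoidAlgebra

variable {G : Type u} [Group G] (f : G →* Multiplicative ℤ)

/-- the part of `g` in the kernel -/
noncomputable def kerPart (t : G) (ht : wt f t = 1) (g : G) : f.ker :=
  ⟨g * t ^ (-(wt f g)), by
    rw [MonoidHom.mem_ker]
    apply Multiplicative.toAdd.injective
    show wt f (g * t ^ (-(wt f g))) = 0
    rw [wt_mul, wt_zpow, ht]; ring⟩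

theorem kerPart_mul (t : G) (ht : wt f t = 1) (n : f.ker) (g : G) :
    kerPart f t ht ((n : G) * g) = n * kerPart f t ht g := by
  apply Subtype.ext
  show (n : G) * g * t ^ (-(wt f ((n : G) * g))) = (n : G) * (g * t ^ (-(wt f g)))
  rw [wt_mul, wt_ker, zero_add, mul_assoc]

/-- coordinates -/
noncomputable def coord (t : G) (ht : wt f t = 1) :
    MonoidAlgebra ℤ G →+ (ℤ →₀ MonoidAlgebra ℤ f.ker) :=
  (Finsupp.liftAddHom (fun g : G => (Finsupp.singleAddHom (wt f g)).comp
    (MonoidAlgebra.singleAddHom (kerPart f t ht g)))).comp
      (coeffAddEquiv (R := ℤ) (M := G)).toAddMonoidHom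

theorem coord_single (t : G) (ht : wt f t = 1) (g : G) (r : ℤ) :
    coord f t ht (single g r) = Finsupp.single (wt f g) (single (kerPart f t ht g) r) := by
  show Finsupp.liftAddHom (fun g : G => (Finsupp.singleAddHom (wt f g)).comp
    (MonoidAlgebra.singleAddHom (kerPart f t ht g))) (single g r).coeff = _
  rw [coeff_single, Finsupp.liftAddHom_apply_single]
  rfl

theorem coord_act (t : G) (ht : wt f t = 1) (s : MonoidAlgebra ℤ f.ker) (x : MonoidAlgebra ℤ G) :
    coord f t ht (phi f s * x) = s • coord f t ht x := by
  induction s using MonoidAlgebra.induction_linear with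
  | zero => simp
  | add a b ha hb => rw [map_add, add_mul, map_add, ha, hb, add_smul]
  | single n c =>
      rw [phi_single]
      induction x using MonoidAlgebra.induction_linear with
      | zero => simp
      | add x y hx hy => rw [mul_add, map_add, hx, hy, map_add, smul_add]
      | single g r =>
          rw [single_mul_single, coord_single, coord_single, Finsupp.smul_single, smul_eq_mul,
            single_mul_single, kerPart_mul, wt_mul, wt_ker, zero_add]

theorem proj_res (t : G) (ht : wt f t = 1) (P : Type v) [AddCommGroup P]
    [Module (MonoidAlgebra ℤ G) P] [hP : Module.Projective (MonoidAlgebra ℤ G) P] :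
    @Module.Projective (MonoidAlgebra ℤ f.ker) _ P _ (resMod f P) := by
  obtain ⟨s, hs⟩ := Module.projective_def'.1 hP
  let _ : Module (MonoidAlgebra ℤ f.ker) P := resMod f P
  have hsm : ∀ (a : MonoidAlgebra ℤ f.ker) (x : P), a • x = phi f a • x := fun _ _ => rfl
  let i : P →ₗ[MonoidAlgebra ℤ f.ker] (P →₀ (ℤ →₀ MonoidAlgebra ℤ f.ker)) :=
    { toFun := fun x => (s x).mapRange (coord f t ht) (map_zero _)
      map_add' := fun x y => by
        rw [map_add, Finsupp.mapRange_add]
        exact map_add _
      map_smul' := fun a x => by
        rw [hsm, map_smul]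
        ext1 y
        rw [Finsupp.mapRange_apply, RingHom.id_apply, Finsupp.smul_apply, Finsupp.smul_apply,
          Finsupp.mapRange_apply, smul_eq_mul, coord_act] }
  let p : (P →₀ (ℤ →₀ MonoidAlgebra ℤ f.ker)) →ₗ[MonoidAlgebra ℤ f.ker] P :=
    Finsupp.lsum ℕ (fun y : P => Finsupp.linearCombination (MonoidAlgebra ℤ f.ker)
      (fun k : ℤ => (single (t ^ k) (1 : ℤ) : MonoidAlgebra ℤ G) • y))
  have hp : ∀ (y : P) (r : MonoidAlgebra ℤ G), p (Finsupp.single y (coord f t ht r)) = r • y := by
    intro y r
    induction r using MonoidAlgebra.induction_linear with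
    | zero => simp
    | add a b ha hb => rw [map_add, Finsupp.single_add, map_add, ha, hb, add_smul]
    | single g c =>
        rw [coord_single]
        show (Finsupp.lsum ℕ _) _ = _
        rw [Finsupp.lsum_single, Finsupp.linearCombination_single, hsm, phi_single, smul_smul,
          single_mul_single, mul_one]
        congr 2
        show g * t ^ (-(wt f g)) * t ^ (wt f g) = g
        rw [mul_assoc, ← zpow_add, neg_add_cancel, zpow_zero, mul_one]
  have hF : ∀ F : P →₀ MonoidAlgebra ℤ G, p (F.mapRange (coord f t ht) (map_zero _))
      = Finsupp.linearCombination (MonoidAlgebra ℤ G) id F := by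
    intro F
    induction F using Finsupp.induction_linear with
    | zero => simp
    | add x y hx hy =>
        rw [Finsupp.mapRange_add (map_add _), map_add, hx, hy, map_add]
    | single y r =>
        rw [Finsupp.mapRange_single, hp, Finsupp.linearCombination_single]
        rfl
  refine Module.Projective.of_split i p ?_
  ext x
  show p ((s x).mapRange (coord f t ht) (map_zero _)) = x
  rw [hF]
  exact LinearMap.congr_fun hs x

end Pool.Agent.NGR.H67
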