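import Pool.Agent.Helper12_NGR.StmtsC
import Pool.Agent.Helper67_NGR.Fs
import Pool.Agent.Helper67_NGR.Cut
import Pool.Agent.Helper67_NGR.Prj

/-!
Module CDF of squad NGR: `cd N ≤ cd G - 1` for the kernel `N` of a homomorphism onto `ℤ` with
Noetherian group ring.
-/

set_option autoImplicit false

universe u v w

namespace Pool.Agent.NGR.H67

open MonoidAlgebra

variable {G : Type u} [Group G] (f : G →* Multiplicative ℤ)

/-- the trivial module -/
noncomputable abbrev trivMod : Module (MonoidAlgebra ℤ f.ker) ℤ :=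
  Module.compHom ℤ (MonoidAlgebra.lift ℤ ℤ f.ker (1 : f.ker →* ℤ)).toRingHom

theorem triv_smul (n : f.ker) (r a : ℤ) :
    (MonoidAlgebra.lift ℤ ℤ f.ker (1 : f.ker →* ℤ)).toRingHom (single n r) * a = r * a := by
  simp

section act

variable {P : Type v} [AddCommGroup P] [Module (MonoidAlgebra ℤ G) P]

theorem act_mul (g h : G) (x : P) : (single g (1 : ℤ) : MonoidAlgebra ℤ G) •
    ((single h (1 : ℤ) : MonoidAlgebra ℤ G) • x)
    = (single (g * h) (1 : ℤ) : MonoidAlgebra ℤ G) • x := by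
  rw [smul_smul, single_mul_single, one_mul]

theorem act_one (x : P) : (single (1 : G) (1 : ℤ) : MonoidAlgebra ℤ G) • x = x := by
  rw [← one_def, one_smul]

end act

/-- The splitting. -/
theorem splitting (t : G) (ht : wt f t = 1) {P Q : Type u} [AddCommGroup P] [AddCommGroup Q]
    [Module (MonoidAlgebra ℤ G) P] [Module (MonoidAlgebra ℤ G) Q]
    (hP : Module.Projective (MonoidAlgebra ℤ G) P)
    (d : P →ₗ[MonoidAlgebra ℤ G] Q) (γ : Q →+ P)
    (hγ : ∀ (n : f.ker) (y : Q), γ ((single (n : G) (1 : ℤ) : MonoidAlgebra ℤ G) • y)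
      = (single (n : G) (1 : ℤ) : MonoidAlgebra ℤ G) • γ y)
    {B : Type u} [AddCommGroup B] [Module (MonoidAlgebra ℤ f.ker) B]
    [Module.Finite (MonoidAlgebra ℤ f.ker) B] (β : B →+ P)
    (hβ : ∀ (s : MonoidAlgebra ℤ f.ker) (b : B), β (s • b) = phi f s • β b)
    (h : ∀ y : P, ∃ b, y = β b + γ (d y)) :
    ∃ u : Q →+ P, (∀ (n : f.ker) (y : Q),
      u ((single (n : G) (1 : ℤ) : MonoidAlgebra ℤ G) • y)
      = (single (n : G) (1 : ℤ) : MonoidAlgebra ℤ G) • u y) ∧ ∀ y, u (d y) = y := by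
  obtain ⟨s, hs⟩ := Module.projective_def'.1 hP
  -- the operators
  let χ : Set ℤ → P →+ P := fun D => (cutSum f D).comp s.toAddMonoidHom
  have hχ : ∀ D x, χ D x = cutSum f D (s x) := fun D x => rfl
  have hact : ∀ (D : Set ℤ) (g : G) (x : P),
      (single g (1 : ℤ) : MonoidAlgebra ℤ G) • χ D x
        = χ {k | k - wt f g ∈ D} ((single g (1 : ℤ) : MonoidAlgebra ℤ G) • x) := by
    intro D g x
    rw [hχ, hχ, cutSum_act, LinearMap.map_smul s]
  have hker : ∀ (D : Set ℤ) (n : f.ker) (x : P),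
      χ D ((single (n : G) (1 : ℤ) : MonoidAlgebra ℤ G) • x)
        = (single (n : G) (1 : ℤ) : MonoidAlgebra ℤ G) • χ D x := by
    intro D n x
    rw [hact, wt_ker]
    congr 2
    ext k
    show k ∈ D ↔ k - 0 ∈ D
    rw [sub_zero]
  have hcompl : ∀ (D : Set ℤ) (x : P), χ D x + χ Dᶜ x = x := by
    intro D x
    rw [hχ, hχ, cutSum_compl]
    exact LinearMap.congr_fun hs x
  -- vanishing on `β`
  obtain ⟨m, q, hq⟩ := Module.Finite.exists_fin' (MonoidAlgebra ℤ f.ker) B
  have hv : ∃ M : ℕ, ∀ D : Set ℤ, (∀ k ∈ D, (M : ℤ) < |k|) → ∀ b, χ D (β b) = 0 := by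
    have h1 : ∀ i : Fin m, ∃ M : ℕ, ∀ D : Set ℤ, (∀ k ∈ D, (M : ℤ) < |k|) →
        χ D (β (q (Pi.single i 1))) = 0 := fun i => cutSum_fin f _
    choose M hM using h1
    refine ⟨Finset.univ.sup M, fun D hD b => ?_⟩
    obtain ⟨c, rfl⟩ := hq b
    have hc : c = ∑ i, c i • (Pi.single i 1 : Fin m → MonoidAlgebra ℤ f.ker) := by
      funext j
      rw [Finset.sum_apply, Finset.sum_eq_single j]
      · simp
      · intro i _ hij
        simp [Pi.single_eq_of_ne hij.symm]
      · intro hj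
        exact absurd (Finset.mem_univ j) hj
    rw [hc, map_sum, map_sum, map_sum]
    refine Finset.sum_eq_zero fun i _ => ?_
    rw [map_smul, hβ, lin_of_equiv f (χ D) (hker D), hM i D, smul_zero]
    intro k hk
    refine lt_of_le_of_lt ?_ (hD k hk)
    exact_mod_cast Finset.le_sup (f := M) (Finset.mem_univ i)
  obtain ⟨M, hM⟩ := hv
  -- the conjugated maps
  have key : ∀ (a : ℤ) (D : Set ℤ), (∀ k ∈ D, (M : ℤ) < |k|) →
      ∃ u : Q →+ P, (∀ (n : f.ker) (y : Q),
        u ((single (n : G) (1 : ℤ) : MonoidAlgebra ℤ G) • y)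
          = (single (n : G) (1 : ℤ) : MonoidAlgebra ℤ G) • u y) ∧
        ∀ y, u (d y) = χ {k | k - a ∈ D} y := by
    intro a D hD
    let T : ℤ → MonoidAlgebra ℤ G := fun a => single (t ^ a) (1 : ℤ)
    refine ⟨((smulAddHom (MonoidAlgebra ℤ G) P) (T a)).comp ((χ D).comp (γ.comp
      ((smulAddHom (MonoidAlgebra ℤ G) Q) (T (-a))))), ?_, ?_⟩
    · intro n y
      show (single (t ^ a) (1 : ℤ) : MonoidAlgebra ℤ G) • χ D (γ
          ((single (t ^ (-a)) (1 : ℤ) : MonoidAlgebra ℤ G) •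
            ((single (n : G) (1 : ℤ) : MonoidAlgebra ℤ G) • y)))
        = (single (n : G) (1 : ℤ) : MonoidAlgebra ℤ G) •
          ((single (t ^ a) (1 : ℤ) : MonoidAlgebra ℤ G) • χ D (γ
          ((single (t ^ (-a)) (1 : ℤ) : MonoidAlgebra ℤ G) • y)))
      have hn : t ^ (-a) * (n : G) * t ^ a ∈ f.ker := by
        have hn' : f (n : G) = 1 := n.2
        rw [MonoidHom.mem_ker, map_mul, map_mul, hn', mul_one, ← map_mul, ← zpow_add,
          neg_add_cancel, zpow_zero, map_one]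
      have e1 : t ^ (-a) * (n : G) = ((⟨_, hn⟩ : f.ker) : G) * t ^ (-a) := by
        show t ^ (-a) * (n : G) = t ^ (-a) * (n : G) * t ^ a * t ^ (-a)
        rw [mul_assoc (t ^ (-a) * (n : G)), ← zpow_add, add_neg_cancel, zpow_zero, mul_one]
      have e2 : t ^ a * ((⟨_, hn⟩ : f.ker) : G) = (n : G) * t ^ a := by
        show t ^ a * (t ^ (-a) * (n : G) * t ^ a) = (n : G) * t ^ a
        rw [← mul_assoc, ← mul_assoc, ← zpow_add, add_neg_cancel, zpow_zero, one_mul]
      rw [act_mul, e1, ← act_mul, hγ, hker, act_mul, e2, ← act_mul]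
    · intro y
      show (single (t ^ a) (1 : ℤ) : MonoidAlgebra ℤ G) • χ D (γ
          ((single (t ^ (-a)) (1 : ℤ) : MonoidAlgebra ℤ G) • d y)) = _
      rw [← LinearMap.map_smul d]
      obtain ⟨b, hb⟩ := h ((single (t ^ (-a)) (1 : ℤ) : MonoidAlgebra ℤ G) • y)
      have h3 : χ D (γ (d ((single (t ^ (-a)) (1 : ℤ) : MonoidAlgebra ℤ G) • y)))
          = χ D ((single (t ^ (-a)) (1 : ℤ) : MonoidAlgebra ℤ G) • y) := by
        nth_rewrite 2 [hb]
        rw [map_add, hM D hD, zero_add]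
      rw [h3, hact, act_mul, ← zpow_add, add_neg_cancel, zpow_zero, act_one, wt_zpow, ht, mul_one]
  obtain ⟨u₁, hu₁, hu₁'⟩ := key (-(M : ℤ)) {k | (M : ℤ) < k} (fun k hk =>
    lt_of_lt_of_le hk (le_abs_self k))
  obtain ⟨u₂, hu₂, hu₂'⟩ := key ((M : ℤ) + 1) {k | k < -(M : ℤ)} (fun k hk => by
    have hk' : k < -(M : ℤ) := hk
    have := neg_abs_le k
    linarith)
  refine ⟨u₁ + u₂, ?_, ?_⟩
  · intro n y
    rw [AddMonoidHom.add_apply, AddMonoidHom.add_apply, hu₁, hu₂, smul_add]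
  · intro y
    rw [AddMonoidHom.add_apply, hu₁', hu₂']
    have e : {k : ℤ | k - ((M : ℤ) + 1) ∈ {k : ℤ | k < -(M : ℤ)}}
        = {k : ℤ | k - (-(M : ℤ)) ∈ {k : ℤ | (M : ℤ) < k}}ᶜ := by
      ext k
      show k - ((M : ℤ) + 1) < -(M : ℤ) ↔ ¬ ((M : ℤ) < k - (-(M : ℤ)))
      omega
    rw [e]
    exact hcompl _ y

theorem cdf : CdfStmt.{u} := by
  intro G _ f hf hN n hG
  obtain ⟨Q, iA, iM, d, ε, hproj, hsub, hinv, hsurj, hex0, hex⟩ := hG
  obtain ⟨t, ht'⟩ := hf (Multiplicative.ofAdd 1)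
  have ht : wt f t = 1 := by rw [wt, ht']; rfl
  let iS : ∀ i, Module (MonoidAlgebra ℤ f.ker) (Q i) := fun i => resMod f (Q i)
  have hsm : ∀ i (a : MonoidAlgebra ℤ f.ker) (x : Q i), a • x = phi f a • x := fun _ _ _ => rfl
  have hpS : ∀ i, Module.Projective (MonoidAlgebra ℤ f.ker) (Q i) := fun i =>
    proj_res f t ht (Q i) (hP := hproj i)
  let dS : ∀ i, Q (i + 1) →ₗ[MonoidAlgebra ℤ f.ker] Q i := fun i =>
    { toFun := d i
      map_add' := map_add _
      map_smul' := fun a x => LinearMap.map_smul (d i) (phi f a) x }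
  have hdS : ∀ i x, dS i x = d i x := fun _ _ => rfl
  let iT : Module (MonoidAlgebra ℤ f.ker) ℤ := trivMod f
  have hT : ∀ (n : f.ker) (r a : ℤ), (single n r : MonoidAlgebra ℤ f.ker) • a = r * a :=
    fun n r a => triv_smul f n r a
  have hfin : Module.Finite (MonoidAlgebra ℤ f.ker) ℤ := by
    refine Module.Finite.of_surjective
      (LinearMap.toSpanSingleton (MonoidAlgebra ℤ f.ker) ℤ (1 : ℤ)) ?_
    intro z
    refine ⟨single 1 z, ?_⟩
    rw [LinearMap.toSpanSingleton_apply, hT, mul_one]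
  let εS : Q 0 →ₗ[MonoidAlgebra ℤ f.ker] ℤ :=
    { toFun := ε
      map_add' := map_add _
      map_smul' := fun a x => by
        rw [RingHom.id_apply, hsm]
        induction a using MonoidAlgebra.induction_linear with
        | zero => simp
        | add a b ha hb => rw [map_add, add_smul, map_add, ha, hb, add_smul]
        | single n r =>
            rw [phi_single, smul_single_eq, map_zsmul, hinv, hT, smul_eq_mul] }
  have hinj : Function.Injective (dS n) := by
    intro x y hxy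
    have h1 : d n (x - y) = 0 := by
      rw [map_sub, sub_eq_zero]
      exact hxy
    obtain ⟨c, hc⟩ := (hex n (x - y)).1 h1
    have := hsub (n + 1 + 1) (by omega)
    rw [Subsingleton.elim c 0, map_zero] at hc
    exact (sub_eq_zero.1 hc.symm)
  obtain ⟨B, iB, iBM, iBF, β, γ, hβγ⟩ := fs_last dS εS hsurj hex0 hex n hinj
  obtain ⟨u, hu, hud⟩ := splitting f t ht (hproj (n + 1)) (d n) γ.toAddMonoidHom
    (fun m y => by
      have := LinearMap.map_smul γ (single m (1 : ℤ)) y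
      rw [hsm, hsm, phi_single] at this
      exact this)
    β.toAddMonoidHom (fun a b => LinearMap.map_smul β a b) hβγ
  let uS : Q n →ₗ[MonoidAlgebra ℤ f.ker] Q (n + 1) :=
    { toFun := u
      map_add' := map_add _
      map_smul' := fun a x => lin_of_equiv f u hu a x }
  obtain ⟨θ, hid, hch, hεθ, hker⟩ := split_res dS ε hex0 hex n hsub uS hud
  obtain ⟨d', hp', hd', hs', he0', he'⟩ := sub_res dS ε hsurj hex0 hex θ hid hch hεθ
  refine ⟨fun i => LinearMap.ker (θ i), fun i => inferInstance, fun i => inferInstance, d',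
    ε.comp (LinearMap.ker (θ 0)).subtype.toAddMonoidHom, hp', ?_, ?_, hs', he0', he'⟩
  · intro i hi
    have h1 : LinearMap.ker (θ i) = ⊥ := hker i hi
    show Subsingleton (LinearMap.ker (θ i))
    rw [h1]
    infer_instance
  · intro m x
    have h2 := hinv (m : G) (x : Q 0)
    rw [← phi_single] at h2
    exact h2

end Pool.Agent.NGR.H67
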